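import Pool.Agent.H743.JL.StmX

/-!
# The function `he` (S_HE)
-/

set_option autoImplicit false
set_option linter.all false

open scoped Classical

namespace Pool.Agent.H295.JX.HE

open Finset
open Pool.Agent.H743.JL Pool.Agent.N916.MO
open Pool.Agent.N916.GB (eta)

theorem Ge_zero : Ge 0 = 1 := by simp [Ge]

theorem Ge_succ (t : ℕ) : Ge (t + 1) = Ge t * (1 - (1 / 2 : ℝ) ^ (t + 1)) := by
  unfold Ge
  rw [prod_range_succ]

theorem half_pow_le (t : ℕ) : (1 / 2 : ℝ) ^ t ≤ 1 :=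
  pow_le_one₀ (by norm_num) (by norm_num)

theorem half_pow_pos (t : ℕ) : 0 < (1 / 2 : ℝ) ^ t := by positivity

theorem Ge_mem (t : ℕ) : 0 ≤ Ge t ∧ Ge t ≤ 1 := by
  induction t with
  | zero => rw [Ge_zero]; norm_num
  | succ t ih =>
    rw [Ge_succ]
    have h1 := half_pow_le (t + 1)
    have h2 := half_pow_pos (t + 1)
    exact ⟨mul_nonneg ih.1 (by linarith), mul_le_one₀ ih.2 (by linarith) (by linarith)⟩

theorem Ge_add (t m : ℕ) : Ge (t + m) ≤ Ge t ∧ Ge t - ((1 / 2 : ℝ) ^ t - (1 / 2 : ℝ) ^ (t + m)) ≤ Ge (t + m) := by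
  induction m with
  | zero => simp
  | succ m ih =>
    rw [← add_assoc, Ge_succ]
    have h1 := half_pow_le (t + m + 1)
    have h2 := half_pow_pos (t + m + 1)
    have h3 := Ge_mem (t + m)
    have h4 : (1 / 2 : ℝ) ^ (t + m + 1) = (1 / 2 : ℝ) ^ (t + m) / 2 := by
      rw [pow_succ]; ring
    constructor
    · nlinarith [ih.1]
    · have h5 : Ge (t + m) * (1 / 2 : ℝ) ^ (t + m + 1) ≤ (1 / 2 : ℝ) ^ (t + m + 1) := by
        nlinarith
      have h6 := ih.2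
      rw [h4] at h5 ⊢
      linarith

theorem mult : Multipliable fun i : ℕ => (1 - (1 / 2 : ℝ) ^ (i + 1)) := by
  have h : Summable fun i : ℕ => -(1 / 2 : ℝ) ^ (i + 1) := by
    have h1 : Summable fun i : ℕ => (1 / 2 : ℝ) ^ (i + 1) := by
      have := summable_geometric_two.mul_left (1 / 2 : ℝ)
      refine this.congr fun i => ?_
      rw [pow_succ]; ring
    exact h1.neg
  have h2 := Real.multipliable_one_add_of_summable h
  exact h2

theorem tendsto_Ge : Filter.Tendsto Ge Filter.atTop (nhds eta) :=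
  mult.hasProd.tendsto_prod_nat

theorem eta_Ge (t : ℕ) : eta ≤ Ge t ∧ Ge t - (1 / 2 : ℝ) ^ t ≤ eta := by
  have h : Filter.Tendsto (fun m => Ge (t + m)) Filter.atTop (nhds eta) := by
    have := (Filter.tendsto_add_atTop_iff_nat t).2 tendsto_Ge
    refine this.congr fun m => ?_
    rw [add_comm]
  constructor
  · exact le_of_tendsto h (Filter.Eventually.of_forall fun m => (Ge_add t m).1)
  · refine ge_of_tendsto h (Filter.Eventually.of_forall fun m => ?_)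
    have h1 := (Ge_add t m).2
    have h2 := half_pow_pos (t + m)
    linarith

/-- the second factor -/
noncomputable def Pr (t r : ℕ) : ℝ := ∏ i ∈ range r, (1 - (2 : ℝ) ^ i / 2 ^ t)

theorem he_eq (t r : ℕ) : he t r = Ge t * Pr t r := rfl

theorem Pr_zero (t : ℕ) : Pr t 0 = 1 := by simp [Pr]

theorem Pr_succ (t r : ℕ) : Pr t (r + 1) = Pr t r * (1 - (2 : ℝ) ^ r / 2 ^ t) := by
  unfold Pr
  rw [prod_range_succ]

theorem Pr_mem (t r : ℕ) : 0 ≤ Pr t r ∧ Pr t r ≤ 1 ∧ (t < r → Pr t r = 0) ∧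
    1 - ((2 : ℝ) ^ r - 1) / 2 ^ t ≤ Pr t r := by
  induction r with
  | zero => rw [Pr_zero]; simp
  | succ r ih =>
    obtain ⟨h1, h2, h3, h4⟩ := ih
    have ht : (0 : ℝ) < 2 ^ t := by positivity
    have hr : (0 : ℝ) < 2 ^ r := by positivity
    rcases lt_or_ge t r with h | h
    · have h0 : Pr t (r + 1) = 0 := by rw [Pr_succ, h3 h, zero_mul]
      rw [h0]
      refine ⟨le_rfl, zero_le_one, fun _ => rfl, ?_⟩
      have h5 : (2 : ℝ) ^ t ≤ 2 ^ r := pow_le_pow_right₀ (by norm_num) h.le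
      have h6 : (1 : ℝ) ≤ 2 ^ r := one_le_pow₀ (by norm_num)
      rw [sub_nonpos, le_div_iff₀ ht, pow_succ]
      linarith
    · have h5 : (2 : ℝ) ^ r ≤ 2 ^ t := pow_le_pow_right₀ (by norm_num) h
      have h6 : (2 : ℝ) ^ r / 2 ^ t ≤ 1 := (div_le_one ht).2 h5
      have h7 : 0 < (2 : ℝ) ^ r / 2 ^ t := by positivity
      rw [Pr_succ]
      refine ⟨mul_nonneg h1 (by linarith), mul_le_one₀ h2 (by linarith) (by linarith),
        fun h8 => ?_, ?_⟩
      · have h9 : r = t := by omega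
        subst h9
        rw [div_self hr.ne']
        ring
      · have h8 : ((2 : ℝ) ^ (r + 1) - 1) / 2 ^ t = ((2 : ℝ) ^ r - 1) / 2 ^ t + (2 : ℝ) ^ r / 2 ^ t := by
          rw [pow_succ]; ring
        have h9 : Pr t r * ((2 : ℝ) ^ r / 2 ^ t) ≤ (2 : ℝ) ^ r / 2 ^ t := by nlinarith
        rw [h8]
        linarith

/-- shift -/
theorem Pr_shift (t r : ℕ) : Pr (t + 1) (r + 1) = (1 - 1 / 2 ^ (t + 1)) * Pr t r := by
  have h : ∀ i : ℕ, (1 - (2 : ℝ) ^ (i + 1) / 2 ^ (t + 1)) = 1 - (2 : ℝ) ^ i / 2 ^ t := by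
    intro i
    have h1 : (2 : ℝ) ^ (i + 1) / 2 ^ (t + 1) = (2 : ℝ) ^ i / 2 ^ t := by
      rw [pow_succ, pow_succ, mul_div_mul_right _ _ (by norm_num : (2 : ℝ) ≠ 0)]
    rw [h1]
  unfold Pr
  rw [prod_range_succ', pow_zero, prod_congr rfl fun i _ => h i]
  exact mul_comm _ _

theorem t_HE : S_HE := by
  refine ⟨fun t r => ?_, fun r => ?_, fun t r => ?_, ?_, fun t => ?_, fun t r => ?_⟩
  · rw [he_eq]
    have h1 := Ge_mem t
    have h2 := Pr_mem t r
    exact ⟨mul_nonneg h1.1 h2.1, mul_le_one₀ h1.2 h2.1 h2.2.1⟩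
  · rw [he_eq, Ge_zero, one_mul]
    split_ifs with h
    · subst h; exact Pr_zero 0
    · exact (Pr_mem 0 r).2.2.1 (Nat.pos_of_ne_zero h)
  · have h1 := Ge_mem t
    have h2 := Pr_mem t r
    have h3 := eta_Ge t
    have ht : (0 : ℝ) < 2 ^ t := by positivity
    have h4 : (1 / 2 : ℝ) ^ t = 1 / 2 ^ t := by rw [div_pow, one_pow]
    rw [he_eq, abs_le]
    have h5 : ((2 : ℝ) ^ r + 1) / 2 ^ t = ((2 : ℝ) ^ r - 1) / 2 ^ t + 2 * (1 / 2 ^ t) := by ring
    have h6 : Ge t * Pr t r ≤ Ge t := mul_le_of_le_one_right h1.1 h2.2.1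
    have h7 : Ge t - ((2 : ℝ) ^ r - 1) / 2 ^ t ≤ Ge t * Pr t r := by
      have h8 : 0 ≤ 1 - Pr t r := by linarith [h2.2.1]
      nlinarith [h2.2.2.2, mul_le_mul_of_nonneg_right h1.2 h8]
    have h8 : 0 ≤ ((2 : ℝ) ^ r - 1) / 2 ^ t := by
      apply div_nonneg _ ht.le
      have : (1 : ℝ) ≤ 2 ^ r := one_le_pow₀ (by norm_num)
      linarith
    have h9 : (0 : ℝ) ≤ 1 / 2 ^ t := by positivity
    rw [h4] at h3
    rw [h5]
    constructor
    · linarith [h3.1, h3.2]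
    · linarith [h3.1, h3.2]
  · have h := eta_Ge 0
    rw [Ge_zero, pow_zero] at h
    exact ⟨by linarith [h.2], h.1⟩
  · rw [he_eq, he_eq, he_eq, Pr_zero, Pr_zero, Pr_succ, Pr_zero, Ge_succ]
    have h4 : (1 / 2 : ℝ) ^ (t + 1) = 1 / 2 ^ t / 2 := by
      rw [div_pow, one_pow, pow_succ]; field_simp
    rw [h4]
    ring
  · rw [he_eq, he_eq, he_eq, he_eq, Pr_shift, Pr_succ t (r + 1), Pr_succ t r, Ge_succ]
    have h4 : (1 / 2 : ℝ) ^ (t + 1) = 1 / 2 ^ t / 2 := by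
      rw [div_pow, one_pow, pow_succ]; field_simp
    have h5 : (1 : ℝ) / 2 ^ (t + 1) = 1 / 2 ^ t / 2 := by
      rw [pow_succ]; field_simp
    have h6 : (2 : ℝ) ^ r / 2 ^ t = 2 ^ (r + 1) * (1 / 2 ^ t) / 2 := by
      rw [pow_succ]; field_simp
    have h7 : (2 : ℝ) ^ (r + 1) / 2 ^ t = 2 ^ (r + 1) * (1 / 2 ^ t) := by
      field_simp
    rw [h4, h5, h6, h7]
    generalize (1 : ℝ) / 2 ^ t = u
    generalize (2 : ℝ) ^ (r + 1) = x
    ring

end Pool.Agent.H295.JX.HE
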