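import Pool.Agent.H743.JL.StmY
import Pool.Agent.H743.JL.NS

/-!
# The random part of a split form in the coordinates (S_NS2)
-/

set_option autoImplicit false
set_option linter.all false

open scoped Classical

namespace Pool.Agent.H295.JX.NS2

open Finset Module
open Pool.Agent.H743.JL
open Pool.Agent.N916.MO
open Pool.Agent.N916.GB (pt ps sx)
open Pool.Agent.H71.JL (SL_pt bil co_inj co_surj)

section
variable {U J : Type} [Fintype U] [DecidableEq U] [Fintype J] [LinearOrder J] {k0 : J}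

theorem Bh_apply {V : Type} [Fintype V] [DecidableEq V] (v0 : V) (L : V → V → ZMod 2)
    (z w : (V → ZMod 2) × (V → ZMod 2)) :
    Bh v0 L z w = SL (fun _ => 0) (fun _ => 0) L z w + z.1 v0 * w.2 v0 + z.2 v0 * w.1 v0 := rfl

theorem SL_pt0 (L : U ⊕ J → U ⊕ J → ZMod 2) (D : J → J → ZMod 2)
    (z w : (U ⊕ J → ZMod 2) × (U ⊕ J → ZMod 2)) :
    SL (fun _ => 0) (fun _ => 0) (pt L D) z w = SL (fun _ => 0) (fun _ => 0) L z w +
      ∑ k, ∑ l, D k l * (w.1 (Sum.inr k) * z.2 (Sum.inr l) + z.1 (Sum.inr k) * w.2 (Sum.inr l)) := by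
  have h := SL_pt (U := U) (J := J) (fun _ => 0) (fun _ => 0) (fun _ => 0) L D (fun _ => rfl) z w
  simp only [add_zero, one_mul] at h
  exact h

theorem Bhp_eq (L : U ⊕ J → U ⊕ J → ZMod 2) (σ : ps J → ZMod 2)
    (z w : EE (E2 (Option U)) (Ix k0)) :
    (Bhp k0 L + sB (Sg k0 σ).1 : EE (E2 (Option U)) (Ix k0) →ₗ[ZMod 2]
      EE (E2 (Option U)) (Ix k0) →ₗ[ZMod 2] ZMod 2) z w =
      Bh (Sum.inr k0) (pt L (Lm (sx σ))) (co k0 z) (co k0 w) := by
  show Bh (Sum.inr k0) L (co k0 z) (co k0 w) + sB (Sg k0 σ).1 z w = _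
  have h1 := bil (k0 := k0) (Lsx_symm σ) (Lm_row (sx σ)) (w.1.1 none) (z.1.2 none) w.2.1 z.2.2
  have h2 := bil (k0 := k0) (Lsx_symm σ) (Lm_row (sx σ)) (z.1.1 none) (w.1.2 none) z.2.1 w.2.2
  have h3 : ∑ k, ∑ l, Lm (sx σ) k l * ((co k0 w).1 (Sum.inr k) * (co k0 z).2 (Sum.inr l) +
      (co k0 z).1 (Sum.inr k) * (co k0 w).2 (Sum.inr l)) = sB (Sg k0 σ).1 z w := by
    rw [sB_apply]
    simp only [mul_add, sum_add_distrib]
    rw [add_comm]
    congr 1
  rw [Bh_apply, Bh_apply, SL_pt0, h3]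
  ring

end

theorem t_NS2 : S_NS2 := by
  intro U J _ _ _ _ k0 L σ
  unfold Nde
  constructor
  · intro h z hz
    obtain ⟨z1, rfl⟩ := co_surj (k0 := k0) z
    have := h z1 fun w => by
      rw [Bhp_eq L σ]
      exact hz _
    rw [this, map_zero]
  · intro h z hz
    refine co_inj z (h _ fun z' => ?_)
    obtain ⟨w, rfl⟩ := co_surj (k0 := k0) z'
    rw [← Bhp_eq L σ]
    exact hz w

end Pool.Agent.H295.JX.NS2
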